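import Pool.Agent.R240.Loc

set_option autoImplicit false

/-! # Continua that are not locally connected: points that cannot be separated -/

namespace Pool.Agent.J4H70.FB

open Set Metric Filter Topology
open Pool.Agent.R240.Loc

/-- `K` is locally connected along `Γ`: close points of `Γ` are joined by small connected subsets
of `K`. -/
def LCAlong (K Γ : Set ℂ) : Prop :=
  ∀ w ∈ Γ, ∀ ε : ℝ, 0 < ε → ∃ δ : ℝ, 0 < δ ∧ ∀ w' ∈ Γ, dist w' w < δ →
    ∃ C ⊆ K ∩ ball w ε, IsPreconnected C ∧ w ∈ C ∧ w' ∈ C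

/-- `Γ` separates `x` and `y` in `K`. -/
def Sepa (K Γ : Set ℂ) (x y : ℂ) : Prop :=
  ∃ A B : Set ℂ, IsOpen A ∧ IsOpen B ∧ Disjoint A B ∧ x ∈ A ∧ y ∈ B ∧ K \ Γ ⊆ A ∪ B

theorem lcAlong_finite {K Γ : Set ℂ} (h : Γ ⊆ K) (hf : Γ.Finite) : LCAlong K Γ := by
  intro w hw ε hε
  have h1 : IsClosed (Γ \ {w}) := (hf.subset sdiff_subset).isClosed
  obtain ⟨δ, hδ, hb⟩ := Metric.isOpen_iff.1 h1.isOpen_compl w (by simp)
  refine ⟨δ, hδ, fun w' hw' hd => ?_⟩
  have h2 : w' = w := by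
    by_contra hne
    exact hb (mem_ball.2 hd) ⟨hw', hne⟩
  subst h2
  refine ⟨{w'}, ?_, isPreconnected_singleton, rfl, rfl⟩
  rintro _ rfl
  exact ⟨h hw, mem_ball_self hε⟩

/-- **Points that cannot be separated.** -/
theorem fibre {K : Set ℂ} (hK : IsCompact K) (hc : IsPreconnected K) {p : ℂ}
    (h : ¬ CIK K p) : ∃ ε : ℝ, 0 < ε ∧ ∃ L ⊆ K, IsCompact L ∧ IsConnected L ∧ p ∈ L ∧
      (∀ s ∈ Icc 0 ε, ∃ z ∈ L, dist z p = s) ∧ (∀ z ∈ L, ¬ CIK K z) ∧
      ∀ x ∈ L, ∀ y ∈ L, ∀ Γ ⊆ K, IsClosed Γ → LCAlong K Γ → ¬ Sepa K Γ x y := by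
  unfold CIK at h
  push Not at h
  obtain ⟨ε₀, hε₀, h⟩ := h
  obtain ⟨ε₂, hε₂⟩ : ∃ ε, ε = ε₀ / 2 := ⟨_, rfl⟩
  obtain ⟨ε₁, hε₁⟩ : ∃ ε, ε = ε₀ / 4 := ⟨_, rfl⟩
  have hε10 : 0 < ε₁ := by rw [hε₁]; linarith
  have hε12 : ε₁ < ε₂ := by rw [hε₁, hε₂]; linarith
  have hε20 : ε₂ < ε₀ := by rw [hε₂]; linarith
  obtain ⟨q, hq⟩ : ∃ q : ℕ → ℂ, ∀ n, q n ∈ K ∧ dist (q n) p < 1 / ((n : ℝ) + 1) ∧
      ∀ C ⊆ K ∩ ball p ε₀, IsPreconnected C → p ∈ C → q n ∉ C := by
    have h1 : ∀ n : ℕ, ∃ y, y ∈ K ∧ dist y p < 1 / ((n : ℝ) + 1) ∧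
      ∀ C ⊆ K ∩ ball p ε₀, IsPreconnected C → p ∈ C → y ∉ C := by
      intro n
      obtain ⟨y, h1, h2, h3⟩ := h (1 / ((n : ℝ) + 1)) (by positivity)
      exact ⟨y, h1, h2, h3⟩
    choose q hq using h1
    exact ⟨q, hq⟩
  have hqlim : Tendsto q atTop (𝓝 p) := by
    rw [tendsto_iff_dist_tendsto_zero]
    exact squeeze_zero (fun _ => dist_nonneg) (fun n => (hq n).2.1.le)
      tendsto_one_div_add_atTop_nhds_zero_nat
  have hpK : p ∈ K := hK.isClosed.mem_of_tendsto hqlim (Eventually.of_forall fun n => (hq n).1)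
  obtain ⟨k, hk, hkp⟩ : ∃ k ∈ K, ε₁ < dist k p := by
    by_contra hcon
    push Not at hcon
    exact (hq 0).2.2 K (fun y hy => ⟨hy, mem_ball.2 ((hcon y hy).trans_lt (by linarith))⟩) hc
      hpK (hq 0).1
  obtain ⟨F, hF⟩ : ∃ F : Set ℂ, F = K ∩ closedBall p ε₂ := ⟨_, rfl⟩
  have hFc : IsCompact F := by rw [hF]; exact hK.inter_right isClosed_closedBall
  obtain ⟨G, hG⟩ : ∃ G : Set ℂ, G = K ∩ closedBall p ε₁ := ⟨_, rfl⟩
  have hGc : IsCompact G := by rw [hG]; exact hK.inter_right isClosed_closedBall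
  have hGK : G ⊆ K := by rw [hG]; exact inter_subset_left
  have hGF : G ⊆ F := by
    rw [hG, hF]
    exact fun y hy => ⟨hy.1, closedBall_subset_closedBall hε12.le hy.2⟩
  have hFsub : F ⊆ K ∩ ball p ε₀ := by
    rw [hF]
    exact fun y hy => ⟨hy.1, closedBall_subset_ball hε20 hy.2⟩
  -- small sets around the points of `G` are contained in `F`
  have hsubF : ∀ w ∈ G, K ∩ ball w (ε₂ - ε₁) ⊆ F := by
    rintro w hw y ⟨hy1, hy2⟩
    rw [hF]
    refine ⟨hy1, mem_closedBall.2 ?_⟩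
    rw [hG] at hw
    have h1 := mem_closedBall.1 hw.2
    rw [mem_ball] at hy2
    have := dist_triangle y w p
    linarith
  -- an ultrafilter
  obtain ⟨U, hU⟩ : ∃ U : Ultrafilter ℕ, (U : Filter ℕ) ≤ atTop :=
    ⟨Ultrafilter.of atTop, Ultrafilter.of_le _⟩
  have hqU : Tendsto q U (𝓝 p) := hqlim.mono_left hU
  have hqG : ∀ᶠ n in (U : Filter ℕ), q n ∈ G := by
    filter_upwards [hqU (closedBall_mem_nhds p hε10)] with n hn
    rw [hG]
    exact ⟨(hq n).1, hn⟩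
  -- the key property
  have key : ∀ w ∈ F, ¬ ∀ᶠ n in (U : Filter ℕ), q n ∈ connectedComponentIn F w := by
    intro w hw hcon
    have hclosed : IsClosed (connectedComponentIn F w) := by
      rw [connectedComponentIn_eq_image hw]
      have : CompactSpace F := isCompact_iff_compactSpace.1 hFc
      exact (isClosed_connectedComponent.isCompact.image continuous_subtype_val).isClosed
    have hp : p ∈ connectedComponentIn F w := hclosed.mem_of_tendsto hqU hcon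
    obtain ⟨n, hn⟩ := hcon.exists
    exact (hq n).2.2 _ ((connectedComponentIn_subset F w).trans hFsub)
      isPreconnected_connectedComponentIn hp hn
  obtain ⟨C, hC⟩ : ∃ C : ℕ → Set ℂ, C = fun n => connectedComponentIn G (q n) := ⟨_, rfl⟩
  have hCG : ∀ n, C n ⊆ G := by
    intro n
    rw [hC]
    exact connectedComponentIn_subset _ _
  have hCc : ∀ n, IsPreconnected (C n) := by
    intro n
    rw [hC]
    exact isPreconnected_connectedComponentIn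
  have hqC : ∀ᶠ n in (U : Filter ℕ), q n ∈ C n := by
    filter_upwards [hqG] with n hn
    rw [hC]
    exact mem_connectedComponentIn hn
  -- a point of `C n` joined to `w` in `F`
  have join : ∀ w ∈ G, ¬ ∀ᶠ n in (U : Filter ℕ), ∃ y ∈ C n, ∃ S ⊆ K ∩ ball w (ε₂ - ε₁),
      IsPreconnected S ∧ w ∈ S ∧ y ∈ S := by
    intro w hw hcon
    apply key w (hGF hw)
    filter_upwards [hcon, hqC] with n hn hqn
    obtain ⟨y, hy, S, hS1, hS2, hS3, hS4⟩ := hn
    have h1 : S ⊆ connectedComponentIn F w :=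
      hS2.subset_connectedComponentIn hS3 (hS1.trans (hsubF w hw))
    have h2 : C n ⊆ connectedComponentIn F y :=
      (hCc n).subset_connectedComponentIn hy ((hCG n).trans hGF)
    rw [connectedComponentIn_eq (h1 hS4)]
    exact h2 hqn
  -- limits along the ultrafilter
  have lim : ∀ y : ℕ → ℂ, (∀ᶠ n in (U : Filter ℕ), y n ∈ G) → ∃ z ∈ G, Tendsto y U (𝓝 z) := by
    intro y hy
    have h1 : (Ultrafilter.map y U : Filter ℂ) ≤ 𝓟 G := by
      rw [le_principal_iff]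
      exact hy
    obtain ⟨z, hz, hle⟩ := hGc.ultrafilter_le_nhds (Ultrafilter.map y U) h1
    exact ⟨z, hz, hle⟩
  obtain ⟨L, hL⟩ : ∃ L : Set ℂ, L = {z | ∀ e : ℝ, 0 < e →
    ∀ᶠ n in (U : Filter ℕ), ∃ y ∈ C n, dist y z < e} := ⟨_, rfl⟩
  have memL : ∀ (y : ℕ → ℂ) (z : ℂ), (∀ᶠ n in (U : Filter ℕ), y n ∈ C n) →
      Tendsto y U (𝓝 z) → z ∈ L := by
    intro y z hy hlim
    rw [hL]
    intro e he
    filter_upwards [hy, hlim (ball_mem_nhds z he)] with n h1 h2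
    exact ⟨y n, h1, mem_ball.1 h2⟩
  have hLcl : IsClosed L := by
    apply isClosed_of_closure_subset
    intro z hz
    rw [hL]
    intro e he
    obtain ⟨z', hz', hzz⟩ := Metric.mem_closure_iff.1 hz (e / 2) (half_pos he)
    rw [hL] at hz'
    filter_upwards [hz' (e / 2) (half_pos he)] with n hn
    obtain ⟨y, hy, hyz⟩ := hn
    refine ⟨y, hy, ?_⟩
    have := dist_triangle y z' z
    rw [dist_comm z' z] at this
    linarith
  have hLG : L ⊆ G := by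
    intro z hz
    have h1 : z ∈ closure G := by
      rw [Metric.mem_closure_iff]
      intro e he
      rw [hL] at hz
      obtain ⟨n, y, hy, hyz⟩ := (hz e he).exists
      exact ⟨y, hCG n hy, by rwa [dist_comm]⟩
    rwa [hGc.isClosed.closure_eq] at h1
  have hLc : IsCompact L := hGc.of_isClosed_subset hLcl hLG
  have hpL : p ∈ L := memL q p hqC hqU
  -- selection of points with a closed property
  have sel : ∀ Q : Set ℂ, (∀ᶠ n in (U : Filter ℕ), (C n ∩ Q).Nonempty) →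
      ∃ (y : ℕ → ℂ) (z : ℂ), (∀ᶠ n in (U : Filter ℕ), y n ∈ C n ∧ y n ∈ Q) ∧ z ∈ G ∧
        Tendsto y U (𝓝 z) ∧ z ∈ L := by
    intro Q hQ
    have h1 : ∀ n, ∃ y, (C n ∩ Q).Nonempty → y ∈ C n ∧ y ∈ Q := by
      intro n
      by_cases hn : (C n ∩ Q).Nonempty
      · obtain ⟨y, hy1, hy2⟩ := hn
        exact ⟨y, fun _ => ⟨hy1, hy2⟩⟩
      · exact ⟨0, fun h => absurd h hn⟩
    choose y hy using h1
    have h2 : ∀ᶠ n in (U : Filter ℕ), y n ∈ C n ∧ y n ∈ Q := hQ.mono fun n hn => hy n hn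
    obtain ⟨z, hz, hlim⟩ := lim y (h2.mono fun n hn => hCG n hn.1)
    exact ⟨y, z, h2, hz, hlim, memL y z (h2.mono fun n hn => hn.1) hlim⟩
  have meet : ∀ z ∈ L, ∀ V : Set ℂ, IsOpen V → z ∈ V →
      ∀ᶠ n in (U : Filter ℕ), (C n ∩ V).Nonempty := by
    intro z hz V hV hzV
    obtain ⟨e, he, hb⟩ := Metric.isOpen_iff.1 hV z hzV
    rw [hL] at hz
    filter_upwards [hz e he] with n hn
    obtain ⟨y, hy, hyz⟩ := hn
    exact ⟨y, hy, hb (mem_ball.2 hyz)⟩
  refine ⟨ε₁, hε10, L, hLG.trans hGK, hLc, ⟨⟨p, hpL⟩, ?_⟩, hpL, ?_, ?_, ?_⟩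
  · -- connectedness
    intro V W hV hW hVW hLV hLW
    by_contra hempty
    rw [not_nonempty_iff_eq_empty] at hempty
    obtain ⟨L₁, hL₁⟩ : ∃ L₁ : Set ℂ, L₁ = L \ W := ⟨_, rfl⟩
    obtain ⟨L₂, hL₂⟩ : ∃ L₂ : Set ℂ, L₂ = L \ V := ⟨_, rfl⟩
    have hL₁c : IsCompact L₁ := by rw [hL₁]; exact hLc.diff hW
    have hL₂c : IsCompact L₂ := by rw [hL₂]; exact hLc.diff hV
    have hdis : Disjoint L₁ L₂ := by
      rw [Set.disjoint_left, hL₁, hL₂]
      rintro z ⟨h1, h2⟩ ⟨_, h4⟩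
      rcases hVW h1 with h | h
      · exact h4 h
      · exact h2 h
    obtain ⟨V', W', hV', hW', hLV', hLW', hd'⟩ :=
      SeparatedNhds.of_isCompact_isCompact hL₁c hL₂c hdis
    have hLun : L ⊆ V' ∪ W' := by
      intro z hz
      by_cases hzW : z ∈ W
      · right
        apply hLW'
        rw [hL₂]
        refine ⟨hz, fun hzV => ?_⟩
        have : z ∈ L ∩ (V ∩ W) := ⟨hz, hzV, hzW⟩
        rw [hempty] at this
        exact this
      · left
        apply hLV'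
        rw [hL₁]
        exact ⟨hz, hzW⟩
    have h1 : ∀ᶠ n in (U : Filter ℕ), C n ⊆ V' ∪ W' := by
      by_contra hcon
      have h2 := Ultrafilter.eventually_not.2 hcon
      obtain ⟨y, z, hy, -, hlim, hz⟩ := sel (V' ∪ W')ᶜ (h2.mono fun n hn => by
        rw [not_subset] at hn
        obtain ⟨y, hy1, hy2⟩ := hn
        exact ⟨y, hy1, hy2⟩)
      have h3 : z ∈ (V' ∪ W')ᶜ := (hV'.union hW').isClosed_compl.mem_of_tendsto hlim
        (hy.mono fun n hn => hn.2)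
      exact h3 (hLun hz)
    obtain ⟨z₁, hz₁, hz₁V⟩ := hLV
    obtain ⟨z₂, hz₂, hz₂W⟩ := hLW
    have hz₁V' : z₁ ∈ V' := by
      apply hLV'
      rw [hL₁]
      refine ⟨hz₁, fun hzW => ?_⟩
      have : z₁ ∈ L ∩ (V ∩ W) := ⟨hz₁, hz₁V, hzW⟩
      rw [hempty] at this
      exact this
    have hz₂W' : z₂ ∈ W' := by
      apply hLW'
      rw [hL₂]
      refine ⟨hz₂, fun hzV => ?_⟩
      have : z₂ ∈ L ∩ (V ∩ W) := ⟨hz₂, hzV, hz₂W⟩
      rw [hempty] at this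
      exact this
    obtain ⟨n, hn1, hn2, hn3⟩ := (h1.and ((meet z₁ hz₁ V' hV' hz₁V').and
      (meet z₂ hz₂ W' hW' hz₂W'))).exists
    obtain ⟨y, -, hy1, hy2⟩ := hCc n V' W' hV' hW' hn1 hn2 hn3
    exact Set.disjoint_left.1 hd' hy1 hy2
  · -- the circles
    rintro s ⟨hs0, hs1⟩
    rcases hs0.eq_or_lt with hs | hs
    · exact ⟨p, hpL, by rw [dist_self]; exact hs⟩
    have h1 : ∀ᶠ n in (U : Filter ℕ), (C n ∩ {z | dist z p = s}).Nonempty := by
      filter_upwards [hqC, hqU (ball_mem_nhds p hs), hqU (ball_mem_nhds p hε10)] with n hn1 hn2 hn3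
      rw [mem_preimage, mem_ball] at hn2 hn3
      obtain ⟨y, hy, hyp⟩ := bump hK hc (hq n).1 hn3 hk hkp
      rw [← hG] at hy
      have hy' : y ∈ C n := by rw [hC]; exact hy
      have h2 := (hCc n).intermediate_value hn1 hy' (f := fun x => dist x p) (by fun_prop)
      obtain ⟨z, hz1, hz2⟩ := h2 (show s ∈ Icc _ _ from ⟨hn2.le, by rw [hyp]; exact hs1⟩)
      exact ⟨z, hz1, hz2⟩
    obtain ⟨y, z, hy, -, hlim, hz⟩ := sel _ h1
    refine ⟨z, hz, ?_⟩
    have h2 : IsClosed {z : ℂ | dist z p = s} := isClosed_eq (by fun_prop) continuous_const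
    exact h2.mem_of_tendsto hlim (hy.mono fun n hn => hn.2)
  · -- no local connectivity
    intro z hz hcik
    obtain ⟨δ, hδ, hcik⟩ := hcik (ε₂ - ε₁) (by linarith)
    apply join z (hLG hz)
    filter_upwards [meet z hz (ball z δ) isOpen_ball (mem_ball_self hδ)] with n hn
    obtain ⟨y, hy1, hy2⟩ := hn
    obtain ⟨S, hS1, hS2, hS3, hS4⟩ := hcik y (hGK (hCG n hy1)) (mem_ball.1 hy2)
    exact ⟨y, hy1, S, hS1, hS2, hS3, hS4⟩
  · -- no separation
    rintro x hx y hy Γ hΓ hΓc hlc ⟨A, B, hA, hB, hAB, hxA, hyB, hsub⟩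
    have h1 : ∀ᶠ n in (U : Filter ℕ), (C n ∩ Γ).Nonempty := by
      filter_upwards [meet x hx A hA hxA, meet y hy B hB hyB] with n hn1 hn2
      by_contra hcon
      rw [not_nonempty_iff_eq_empty] at hcon
      have h2 : C n ⊆ A ∪ B := by
        intro z hz
        apply hsub
        refine ⟨hGK (hCG n hz), fun hzΓ => ?_⟩
        have : z ∈ C n ∩ Γ := ⟨hz, hzΓ⟩
        rw [hcon] at this
        exact this
      obtain ⟨z, -, hz1, hz2⟩ := hCc n A B hA hB h2 hn1 hn2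
      exact Set.disjoint_left.1 hAB hz1 hz2
    obtain ⟨v, w, hv, hwG, hlim, -⟩ := sel Γ h1
    have hwΓ : w ∈ Γ := hΓc.mem_of_tendsto hlim (hv.mono fun n hn => hn.2)
    obtain ⟨δ, hδ, hlc⟩ := hlc w hwΓ (ε₂ - ε₁) (by linarith)
    apply join w hwG
    filter_upwards [hv, hlim (ball_mem_nhds w hδ)] with n hn1 hn2
    obtain ⟨S, hS1, hS2, hS3, hS4⟩ := hlc (v n) hn1.2 (mem_ball.1 hn2)
    exact ⟨v n, hn1.1, S, hS1, hS2, hS3, hS4⟩

/-- a circle separates -/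
theorem sepa_sphere {K : Set ℂ} (hK : IsCompact K) (h : ∀ z ∈ K, CIK K z) {x y : ℂ} (hxy : x ≠ y) :
    ∃ Γ ⊆ K, IsClosed Γ ∧ LCAlong K Γ ∧ Sepa K Γ x y := by
  have hd : 0 < dist x y := dist_pos.2 hxy
  refine ⟨K ∩ sphere x (dist x y / 2), inter_subset_left, hK.isClosed.inter isClosed_sphere, ?_, ?_⟩
  · intro w hw ε hε
    obtain ⟨δ, hδ, h1⟩ := h w hw.1 ε hε
    exact ⟨δ, hδ, fun w' hw' hd' => h1 w' hw'.1 hd'⟩
  · refine ⟨ball x (dist x y / 2), (closedBall x (dist x y / 2))ᶜ, isOpen_ball,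
      isClosed_closedBall.isOpen_compl, ?_, mem_ball_self (by positivity), ?_, ?_⟩
    · rw [Set.disjoint_left]
      intro z hz hz'
      exact hz' (ball_subset_closedBall hz)
    · rw [mem_compl_iff, mem_closedBall, dist_comm y x]
      linarith
    · rintro z ⟨hz, hz'⟩
      rcases lt_trichotomy (dist z x) (dist x y / 2) with h1 | h1 | h1
      · exact Or.inl (mem_ball.2 h1)
      · exact absurd ⟨hz, mem_sphere.2 h1⟩ hz'
      · right
        rw [mem_compl_iff, mem_closedBall]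
        exact not_le.2 h1

end Pool.Agent.J4H70.FB
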