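import Pool.Agent.J4H70.FB.A
import Pool.Agent.J4H70.ML.H

set_option autoImplicit false

/-! # Local connectivity is decided on countably many circles -/

namespace Pool.Agent.J4H70.FB

open Filter Topology Set Metric MeasureTheory Pool.Agent.H712R2
open Pool.Agent.R240.Loc
open Pool.Agent.J4H70.ML (cik_interior)
open N62a1eb23

/-- rational centres are dense -/
theorem exists_rat_near (z : ℂ) {e : ℝ} (he : 0 < e) :
    ∃ a b : ℚ, dist (⟨(a : ℝ), (b : ℝ)⟩ : ℂ) z < e := by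
  obtain ⟨a, ha1, ha2⟩ := exists_rat_btwn (show z.re < z.re + e / 2 by linarith)
  obtain ⟨b, hb1, hb2⟩ := exists_rat_btwn (show z.im < z.im + e / 2 by linarith)
  refine ⟨a, b, ?_⟩
  rw [dist_eq_norm]
  refine (Complex.norm_le_abs_re_add_abs_im _).trans_lt ?_
  have h1 : ((⟨(a : ℝ), (b : ℝ)⟩ : ℂ) - z).re = a - z.re := by simp
  have h2 : ((⟨(a : ℝ), (b : ℝ)⟩ : ℂ) - z).im = b - z.im := by simp
  rw [h1, h2, abs_of_pos (by linarith), abs_of_pos (by linarith)]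
  linarith

/-- countably many circles with good points only, which meet every continuum -/
theorem circles {E : Set ℂ} {T : ℂ → Prop}
    (h : ∀ p₀ : ℂ, ∀ᵐ s : ℝ, ∀ c ∈ E, dist c p₀ = s → T c) :
    ∃ S : Set (ℂ × ℝ), S.Countable ∧ (∀ σ ∈ S, 0 < σ.2) ∧
      (∀ σ ∈ S, ∀ c ∈ E, dist c σ.1 = σ.2 → T c) ∧
      ∀ L : Set ℂ, IsPreconnected L → ∀ z₀ ∈ L, ∀ z₁ ∈ L, z₀ ≠ z₁ →
        ∃ σ ∈ S, ∃ τ ∈ S, ∃ c ∈ L, ∃ c' ∈ L, dist c σ.1 = σ.2 ∧ dist c' τ.1 = τ.2 ∧ c ≠ c' := by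
  have h1 : ∀ (x : ℂ) (u v : ℝ), u < v → ∃ s ∈ Ioo u v, ∀ c ∈ E, dist c x = s → T c := by
    intro x u v huv
    by_contra hcon
    push Not at hcon
    have h2 : volume (Ioo u v) = 0 := by
      apply measure_mono_null _ (h x)
      intro s hs hs'
      obtain ⟨c, hc1, hc2, hc3⟩ := hcon s hs
      exact hc3 (hs' c hc1 hc2)
    rw [Real.volume_Ioo, ENNReal.ofReal_eq_zero] at h2
    linarith
  have h2 : ∀ i : (ℚ × ℚ) × (ℚ × ℚ), ∃ s : ℝ, (i.2.1 < i.2.2 → s ∈ Ioo (i.2.1 : ℝ) i.2.2 ∧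
      ∀ c ∈ E, dist c (⟨(i.1.1 : ℝ), (i.1.2 : ℝ)⟩ : ℂ) = s → T c) := by
    intro i
    by_cases hi : i.2.1 < i.2.2
    · obtain ⟨s, hs1, hs2⟩ := h1 ⟨(i.1.1 : ℝ), (i.1.2 : ℝ)⟩ i.2.1 i.2.2 (by exact_mod_cast hi)
      exact ⟨s, fun _ => ⟨hs1, hs2⟩⟩
    · exact ⟨0, fun h => absurd h hi⟩
  choose s hs using h2
  obtain ⟨f, hf⟩ : ∃ f : (ℚ × ℚ) × (ℚ × ℚ) → ℂ × ℝ,
    f = fun i => ((⟨(i.1.1 : ℝ), (i.1.2 : ℝ)⟩ : ℂ), s i) := ⟨_, rfl⟩
  refine ⟨f '' {i | 0 ≤ i.2.1 ∧ i.2.1 < i.2.2}, (to_countable _).image f, ?_, ?_, ?_⟩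
  · rintro _ ⟨i, ⟨hi0, hi1⟩, rfl⟩
    rw [hf]
    have h3 := (hs i hi1).1.1
    have h4 : (0 : ℝ) ≤ i.2.1 := by exact_mod_cast hi0
    exact h4.trans_lt h3
  · rintro _ ⟨i, ⟨hi0, hi1⟩, rfl⟩ c hc hd
    rw [hf] at hd
    exact (hs i hi1).2 c hc hd
  · intro L hL z₀ hz₀ z₁ hz₁ hne
    obtain ⟨e, he⟩ : ∃ e, e = dist z₁ z₀ := ⟨_, rfl⟩
    have he0 : 0 < e := by rw [he]; exact dist_pos.2 hne.symm
    obtain ⟨a, b, hab⟩ := exists_rat_near z₀ (show 0 < e / 10 by positivity)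
    obtain ⟨x, hx⟩ : ∃ x : ℂ, x = ⟨(a : ℝ), (b : ℝ)⟩ := ⟨_, rfl⟩
    rw [← hx] at hab
    -- the circles meet `L`
    have hmeet : ∀ r : ℝ, e / 10 < r → r < 9 * e / 10 → ∃ c ∈ L, dist c x = r := by
      intro r hr1 hr2
      have h3 : dist z₀ x ≤ r := by
        rw [dist_comm]
        linarith
      have h4 : r ≤ dist z₁ x := by
        have := dist_triangle z₁ x z₀
        linarith
      obtain ⟨c, hc1, hc2⟩ := hL.intermediate_value hz₀ hz₁ (f := fun z => dist z x)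
        (by fun_prop) (show r ∈ Icc _ _ from ⟨h3, h4⟩)
      exact ⟨c, hc1, hc2⟩
    obtain ⟨u, hu1, hu2⟩ := exists_rat_btwn (show e / 5 < e / 4 by linarith)
    obtain ⟨v, hv1, hv2⟩ := exists_rat_btwn (show (u : ℝ) < e / 4 from hu2)
    obtain ⟨u', hu1', hu2'⟩ := exists_rat_btwn (show e / 3 < e / 2 by linarith)
    obtain ⟨v', hv1', hv2'⟩ := exists_rat_btwn (show (u' : ℝ) < e / 2 from hu2')
    obtain ⟨i, hi⟩ : ∃ i : (ℚ × ℚ) × (ℚ × ℚ), i = ((a, b), (u, v)) := ⟨_, rfl⟩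
    obtain ⟨j, hj⟩ : ∃ j : (ℚ × ℚ) × (ℚ × ℚ), j = ((a, b), (u', v')) := ⟨_, rfl⟩
    have hiS : 0 ≤ i.2.1 ∧ i.2.1 < i.2.2 := by
      rw [hi]
      constructor
      · have : (0 : ℝ) ≤ u := by linarith
        exact_mod_cast this
      · exact_mod_cast hv1
    have hjS : 0 ≤ j.2.1 ∧ j.2.1 < j.2.2 := by
      rw [hj]
      constructor
      · have : (0 : ℝ) ≤ u' := by linarith
        exact_mod_cast this
      · exact_mod_cast hv1'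
    have hsi := (hs i hiS.2).1
    have hsj := (hs j hjS.2).1
    have hsi1 : (u : ℝ) < s i := by have := hsi.1; rw [hi] at this ⊢; exact this
    have hsi2 : s i < v := by have := hsi.2; rw [hi] at this ⊢; exact this
    have hsj1 : (u' : ℝ) < s j := by have := hsj.1; rw [hj] at this ⊢; exact this
    have hsj2 : s j < v' := by have := hsj.2; rw [hj] at this ⊢; exact this
    obtain ⟨c, hc1, hc2⟩ := hmeet (s i) (by linarith) (by linarith)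
    obtain ⟨c', hc1', hc2'⟩ := hmeet (s j) (by linarith) (by linarith)
    refine ⟨f i, ⟨i, hiS, rfl⟩, f j, ⟨j, hjS, rfl⟩, c, hc1, c', hc1', ?_, ?_, ?_⟩
    · rw [hf, hi]
      rw [hx, hi] at hc2
      exact hc2
    · rw [hf, hj]
      rw [hx, hj] at hc2'
      exact hc2'
    · rintro rfl
      rw [hc2] at hc2'
      linarith

/-- **Local connectivity of a continuum is decided by pairs of good points on countably many
circles.** -/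
theorem decide {K : Set ℂ} (hK : IsCompact K) (hc : IsPreconnected K) {T : ℂ → Prop}
    (h : ∀ p₀ : ℂ, ∀ᵐ s : ℝ, ∀ c ∈ frontier K, dist c p₀ = s → T c) :
    ∃ S : Set (ℂ × ℝ), S.Countable ∧ (∀ σ ∈ S, 0 < σ.2) ∧
      (∀ σ ∈ S, ∀ c ∈ frontier K, dist c σ.1 = σ.2 → T c) ∧
      (LocallyConnectedSpace K ↔ ∀ σ ∈ S, ∀ τ ∈ S, ∀ x ∈ frontier K, ∀ y ∈ frontier K,
        dist x σ.1 = σ.2 → dist y τ.1 = τ.2 → x ≠ y →
          ∃ Γ ⊆ K, IsClosed Γ ∧ LCAlong K Γ ∧ Sepa K Γ x y) ∧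
      (LocallyConnectedSpace K ↔ ∀ σ ∈ S, ∀ x ∈ frontier K, dist x σ.1 = σ.2 → CIK K x) := by
  obtain ⟨S, hS1, hS2, hS3, hS4⟩ := circles h
  refine ⟨S, hS1, hS2, hS3, ⟨?_, ?_⟩, ⟨?_, ?_⟩⟩
  · intro hl σ _ τ _ x _ y _ _ _ hxy
    exact sepa_sphere hK (lcs_iff.1 hl) hxy
  · intro hsep
    refine lcs_iff.2 fun p _ => ?_
    by_contra hcik
    obtain ⟨ε, hε, L, hLK, hLc, hLcon, hpL, hcirc, hncik, hnsep⟩ := fibre hK hc hcik
    have hLf : L ⊆ frontier K := fun z hz =>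
      ⟨subset_closure (hLK hz), fun hi => hncik z hz (cik_interior hi)⟩
    obtain ⟨z, hz, hzp⟩ := hcirc ε ⟨hε.le, le_rfl⟩
    obtain ⟨σ, hσ, τ, hτ, c, hc, c', hc', h1, h2, h3⟩ := hS4 L hLcon.isPreconnected p hpL z hz (by
      rintro rfl
      rw [dist_self] at hzp
      exact hε.ne hzp)
    obtain ⟨Γ, hΓ1, hΓ2, hΓ3, hΓ4⟩ := hsep σ hσ τ hτ c (hLf hc) c' (hLf hc') h1 h2 h3
    exact hnsep c hc c' hc' Γ hΓ1 hΓ2 hΓ3 hΓ4
  · intro hl σ _ x hx _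
    exact lcs_iff.1 hl x (hK.isClosed.frontier_subset hx)
  · intro hl
    refine lcs_iff.2 fun p _ => ?_
    by_contra hcik
    obtain ⟨ε, hε, L, hLK, hLc, hLcon, hpL, hcirc, hncik, hnsep⟩ := fibre hK hc hcik
    have hLf : L ⊆ frontier K := fun z hz =>
      ⟨subset_closure (hLK hz), fun hi => hncik z hz (cik_interior hi)⟩
    obtain ⟨z, hz, hzp⟩ := hcirc ε ⟨hε.le, le_rfl⟩
    obtain ⟨σ, hσ, τ, hτ, c, hc, c', hc', h1, h2, h3⟩ := hS4 L hLcon.isPreconnected p hpL z hz (by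
      rintro rfl
      rw [dist_self] at hzp
      exact hε.ne hzp)
    exact hncik c hc (hl σ hσ c (hLf hc) h1)

end Pool.Agent.J4H70.FB
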